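import Mathlib
import Pool.Agent.Q270.GcdSub

/-!
Simultaneous approximation of algebraic numbers with denominators which are products of a number
and a smooth number: a case of the subspace theorem.
-/

set_option autoImplicit false

open Finset Filter Topology

namespace Pool.Agent.Q263.JM

open Pool.Agent.TH419.WI (mon)

/-- smooth numbers divide the powers of a factorial -/
lemma smooth_dvd {B s : ℕ} (hs : 1 ≤ s) (h : ∀ p : ℕ, p.Prime → p ∣ s → p ≤ B) :
    s ∣ ((max B 2).factorial) ^ s := by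
  have hb0 : (max B 2).factorial ≠ 0 := Nat.factorial_ne_zero _
  rw [← Nat.factorization_prime_le_iff_dvd (by omega) (pow_ne_zero _ hb0)]
  intro p hp
  by_cases hps : p ∣ s
  · have h1 : p ∣ (max B 2).factorial :=
      (hp.dvd_factorial).2 ((h p hp hps).trans (le_max_left _ _))
    have h2 : 1 ≤ ((max B 2).factorial).factorization p :=
      (hp.dvd_iff_one_le_factorization hb0).1 h1
    have h3 : s.factorization p < s := Nat.factorization_lt p (by omega)
    rw [Nat.factorization_pow]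
    simp only [Finsupp.smul_apply, smul_eq_mul]
    calc s.factorization p ≤ s := h3.le
      _ = s * 1 := (mul_one s).symm
      _ ≤ _ := Nat.mul_le_mul_left _ h2
  · rw [Nat.factorization_eq_zero_of_not_dvd hps]
    exact Nat.zero_le _

/-- the matrix of the linear forms -/
def frm {n : ℕ} (x : Fin n → ℝ) : Matrix (Fin (n + 1)) (Fin (n + 1)) ℝ :=
  Matrix.of fun i j => Fin.cases (motive := fun _ => ℝ) (Fin.cases (motive := fun _ => ℝ) 1
    (fun _ => 0) j) (fun i' => Fin.cases (motive := fun _ => ℝ) (x i')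
      (fun j' => if i' = j' then -1 else 0) j) i

lemma frm_det {n : ℕ} (x : Fin n → ℝ) : (frm x).det ≠ 0 := by
  have h : (frm x).BlockTriangular OrderDual.toDual := by
    intro i j hij
    have hij' : i < j := OrderDual.toDual_lt_toDual.1 hij
    refine Fin.cases ?_ (fun j' => ?_) j (motive := fun j => i < j → frm x i j = 0) hij'
    · intro h
      exact absurd h (Fin.not_lt_zero i)
    · intro h
      refine Fin.cases ?_ (fun i' => ?_) i (motive := fun i => i < j'.succ → frm x i j'.succ = 0) h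
      · intro _
        rfl
      · intro h2
        have h3 : i' ≠ j' := by
          rintro rfl
          exact lt_irrefl _ h2
        show (if i' = j' then (-1 : ℝ) else 0) = 0
        rw [if_neg h3]
  rw [Matrix.det_of_isLowerTriangular _ h, Fin.prod_univ_succ]
  have h1 : frm x 0 0 = 1 := rfl
  have h2 : ∀ i : Fin n, frm x i.succ i.succ = -1 := by
    intro i
    show (if i = i then (-1 : ℝ) else 0) = -1
    rw [if_pos rfl]
  rw [h1, Finset.prod_congr rfl fun i _ => h2 i, Finset.prod_const, one_mul]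
  exact pow_ne_zero _ (by norm_num)

/-- **Simultaneous approximation with smooth factors of the denominators.** -/
theorem simul {n : ℕ} (hn : 1 ≤ n) (x : Fin n → ℝ) (halg : ∀ i, IsAlgebraic ℚ (x i))
    (hlin : ∀ (c0 : ℤ) (c : Fin n → ℤ), (c0 : ℝ) + ∑ i, (c i : ℝ) * x i = 0 → c0 = 0 ∧ c = 0)
    (B : ℕ) (δ : ℝ) (hδ : 0 < δ) :
    ∃ c : ℝ, 0 < c ∧ ∀ g s : ℕ, 1 ≤ g → 1 ≤ s → (∀ p : ℕ, p.Prime → p ∣ s → p ≤ B) →
      ∀ P : Fin n → ℤ, ∃ l, c ≤ (g : ℝ) ^ (1 / (n : ℝ) + δ) * (s : ℝ) ^ δ *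
        |(s : ℝ) * g * x l - P l| := by
  classical
  by_contra hcon
  push Not at hcon
  have hn0 : (0 : ℝ) < n := by exact_mod_cast hn
  have h1 : ∀ t : ℕ, ∃ g s : ℕ, 1 ≤ g ∧ 1 ≤ s ∧ (∀ p : ℕ, p.Prime → p ∣ s → p ≤ B) ∧
      ∃ P : Fin n → ℤ, ∀ l, (g : ℝ) ^ (1 / (n : ℝ) + δ) * (s : ℝ) ^ δ *
        |(s : ℝ) * g * x l - P l| < 1 / ((t : ℝ) + 1) := by
    intro t
    obtain ⟨g, s, hg, hs, hsm, P, hP⟩ := hcon (1 / ((t : ℝ) + 1)) (by positivity)
    exact ⟨g, s, hg, hs, hsm, P, hP⟩
  choose g s hg hs hsm P hP using h1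
  have hgR : ∀ t, (1 : ℝ) ≤ g t := fun t => by exact_mod_cast hg t
  have hsR : ∀ t, (1 : ℝ) ≤ s t := fun t => by exact_mod_cast hs t
  have hpw : ∀ t, (1 : ℝ) ≤ (g t : ℝ) ^ (1 / (n : ℝ) + δ) * (s t : ℝ) ^ δ := by
    intro t
    have e1 := Real.one_le_rpow (hgR t) (by positivity : 0 ≤ 1 / (n : ℝ) + δ)
    have e2 := Real.one_le_rpow (hsR t) hδ.le
    nlinarith
  have hsmall : ∀ t l, |(s t : ℝ) * g t * x l - P t l| < 1 / ((t : ℝ) + 1) := by
    intro t l
    refine lt_of_le_of_lt ?_ (hP t l)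
    have := mul_le_mul_of_nonneg_right (hpw t) (abs_nonneg ((s t : ℝ) * g t * x l - P t l))
    rwa [one_mul] at this
  have hsmall1 : ∀ t l, |(s t : ℝ) * g t * x l - P t l| ≤ 1 := by
    intro t l
    refine (hsmall t l).le.trans ?_
    rw [div_le_one (by positivity)]
    have : (0 : ℝ) ≤ t := Nat.cast_nonneg t
    linarith
  -- the denominators tend to infinity
  let l0 : Fin n := ⟨0, by omega⟩
  have hirr : ∀ q : ℕ, 1 ≤ q → 0 < |(q : ℝ) * x l0 - round ((q : ℝ) * x l0)| := by
    intro q hq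
    rw [abs_pos]
    intro h
    have h2 := hlin (-(round ((q : ℝ) * x l0))) (Pi.single l0 (q : ℤ)) (by
      rw [Finset.sum_eq_single l0]
      · rw [Pi.single_eq_same]
        push_cast
        linarith
      · intro b _ hb
        rw [Pi.single_eq_of_ne hb]
        simp
      · intro h; exact absurd (Finset.mem_univ _) h)
    have h3 := congrFun h2.2 l0
    rw [Pi.single_eq_same] at h3
    simp at h3
    omega
  have hinf : ∀ K : ℕ, ∀ᶠ t in atTop, K < s t * g t := by
    intro K
    obtain ⟨μ, hμ, hμ2⟩ : ∃ μ : ℝ, 0 < μ ∧ ∀ q : ℕ, 1 ≤ q → q ≤ K →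
        μ ≤ |(q : ℝ) * x l0 - round ((q : ℝ) * x l0)| := by
      rcases Nat.eq_zero_or_pos K with hK | hK
      · exact ⟨1, one_pos, fun q h1 h2 => by omega⟩
      · have hne : (Finset.Icc 1 K).Nonempty := ⟨1, by simp; omega⟩
        obtain ⟨q0, hq0, hq1⟩ := Finset.exists_min_image (Finset.Icc 1 K)
          (fun q : ℕ => |(q : ℝ) * x l0 - round ((q : ℝ) * x l0)|) hne
        rw [Finset.mem_Icc] at hq0
        exact ⟨_, hirr q0 hq0.1, fun q h1 h2 => hq1 q (Finset.mem_Icc.2 ⟨h1, h2⟩)⟩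
    have h2 : ∀ᶠ t : ℕ in atTop, 1 / ((t : ℝ) + 1) < μ :=
      (tendsto_one_div_add_atTop_nhds_zero_nat).eventually (gt_mem_nhds hμ)
    filter_upwards [h2] with t ht
    by_contra hle
    push Not at hle
    have h3 := hμ2 (s t * g t) (Nat.mul_pos (by have := hs t; omega) (by have := hg t; omega)) hle
    have h4 := round_le (((s t * g t : ℕ) : ℝ) * x l0) (P t l0)
    have h5 := hsmall t l0
    push_cast at h3 h4
    linarith
  have hN : Tendsto (fun t => Real.log ((s t : ℝ) * g t)) atTop atTop := by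
    apply Real.tendsto_log_atTop.comp
    rw [tendsto_atTop]
    intro b
    filter_upwards [hinf ⌈b⌉₊] with t ht
    have h2 : (⌈b⌉₊ : ℝ) ≤ (s t : ℝ) * g t := by exact_mod_cast ht.le
    exact (Nat.le_ceil b).trans h2
  -- the monomials
  obtain ⟨k, G, hG, hmon⟩ := Pool.Agent.Q270.Gs.smooth ((max B 2).factorial) (by
    calc 2 = Nat.factorial 2 := rfl
      _ ≤ _ := Nat.factorial_le (le_max_right _ _))
  have h2 : ∀ t, ∃ e : Fin k → ℕ, mon G e = s t := fun t =>
    hmon (s t) (s t) (smooth_dvd (hs t) (hsm t))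
  choose e0 he0 using h2
  have hmon0 : mon G (fun _ => 0) = 1 := by
    unfold mon
    simp
  have hs0 : ∀ t, (0 : ℝ) < s t := fun t => by have := hsR t; linarith
  have hg0 : ∀ t, (0 : ℝ) < g t := fun t => by have := hgR t; linarith
  have hρ0 : ∀ t, (0 : ℝ) < ((g t : ℝ) ^ (1 / (n : ℝ) + δ) * (s t : ℝ) ^ δ)⁻¹ := by
    intro t
    have := hpw t
    positivity
  have hlogρ : ∀ t, Real.log (((g t : ℝ) ^ (1 / (n : ℝ) + δ) * (s t : ℝ) ^ δ)⁻¹) =
      -((1 / (n : ℝ) + δ) * Real.log (g t) + δ * Real.log (s t)) := by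
    intro t
    have h3 := hs0 t
    have h4 := hg0 t
    rw [Real.log_inv, Real.log_mul (by positivity) (by positivity), Real.log_rpow h4,
      Real.log_rpow h3]
  have hls : ∀ t, 0 ≤ Real.log (s t) := fun t => Real.log_nonneg (hsR t)
  have hlg : ∀ t, 0 ≤ Real.log (g t) := fun t => Real.log_nonneg (hgR t)
  have hlsg : ∀ t, Real.log ((s t : ℝ) * g t) = Real.log (s t) + Real.log (g t) := fun t =>
    Real.log_mul (hs0 t).ne' (hg0 t).ne'
  obtain ⟨y, hy, hfr⟩ := Pool.Agent.Q270.Gs.subR (n := n + 1) (k := k) (by omega) G hG (frm x)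
    (by
      intro i j
      refine Fin.cases ?_ (fun i' => ?_) i (motive := fun i => IsAlgebraic ℚ (frm x i j))
      · refine Fin.cases ?_ (fun j' => ?_) j (motive := fun j => IsAlgebraic ℚ (frm x 0 j))
        · exact isAlgebraic_one
        · exact isAlgebraic_zero
      · refine Fin.cases ?_ (fun j' => ?_) j (motive := fun j => IsAlgebraic ℚ (frm x i'.succ j))
        · exact halg i'
        · show IsAlgebraic ℚ (if i' = j' then (-1 : ℝ) else 0)
          split_ifs
          · exact isAlgebraic_one.neg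
          · exact isAlgebraic_zero)
    (frm_det x) (1 / (n : ℝ) + δ + 1) (n * δ) (by positivity)
    (fun t => Real.log ((s t : ℝ) * g t)) hN
    (fun t => Fin.cons (e0 t) (fun _ _ => 0))
    (fun t => Fin.cons ((s t : ℝ) * g t)
      (fun _ => ((g t : ℝ) ^ (1 / (n : ℝ) + δ) * (s t : ℝ) ^ δ)⁻¹))
    (fun t => Fin.cons (g t : ℤ) (P t))
    (by
      intro t
      rw [Fin.sum_univ_succ]
      simp only [Fin.cons_zero, Fin.cons_succ, he0, hmon0]
      simp only [Int.cast_natCast, Int.cast_one, Real.log_one, Finset.sum_const_zero, add_zero]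
      rw [hlsg]
      have h3 := hls t
      have h4 := hlg t
      have h5 : (0 : ℝ) ≤ 1 / (n : ℝ) + δ := by positivity
      nlinarith)
    (by
      intro t l
      refine Fin.cases ?_ (fun l' => ?_) l (motive := fun l => 0 < (Fin.cons ((s t : ℝ) * g t)
        (fun _ => ((g t : ℝ) ^ (1 / (n : ℝ) + δ) * (s t : ℝ) ^ δ)⁻¹) : Fin (n + 1) → ℝ) l)
      · simp only [Fin.cons_zero]
        exact mul_pos (hs0 t) (hg0 t)
      · simp only [Fin.cons_succ]
        exact hρ0 t)
    (by
      intro t l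
      refine Fin.cases ?_ (fun l' => ?_) l (motive := fun l => |Real.log ((Fin.cons
        ((s t : ℝ) * g t) (fun _ => ((g t : ℝ) ^ (1 / (n : ℝ) + δ) * (s t : ℝ) ^ δ)⁻¹) :
          Fin (n + 1) → ℝ) l)| ≤ (1 / (n : ℝ) + δ + 1) * Real.log ((s t : ℝ) * g t))
      · simp only [Fin.cons_zero]
        rw [hlsg, abs_of_nonneg (by linarith [hls t, hlg t])]
        have h5 : (0 : ℝ) ≤ 1 / (n : ℝ) + δ := by positivity
        nlinarith [hls t, hlg t]
      · simp only [Fin.cons_succ]
        have h5 : (0 : ℝ) ≤ 1 / (n : ℝ) := by positivity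
        have h6 : 0 ≤ (1 / (n : ℝ) + δ) * Real.log (g t) + δ * Real.log (s t) := by
          have := hls t
          have := hlg t
          positivity
        rw [hlogρ, abs_neg, abs_of_nonneg h6, hlsg]
        nlinarith [hls t, hlg t, mul_nonneg h5 (hls t), mul_nonneg h5 (hlg t),
          mul_nonneg hδ.le (hls t), mul_nonneg hδ.le (hlg t)])
    (by
      intro t
      rw [Fin.sum_univ_succ, Fin.sum_univ_succ]
      simp only [Fin.cons_zero, Fin.cons_succ, he0, hmon0]
      simp only [Int.cast_natCast, Int.cast_one, Real.log_one, Finset.sum_const_zero, add_zero,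
        Finset.sum_const, Finset.card_univ, Fintype.card_fin, nsmul_eq_mul]
      rw [hlogρ, hlsg]
      have h5 : (n : ℝ) * (1 / n) = 1 := by field_simp
      have h6 : (n : ℝ) * -((1 / (n : ℝ) + δ) * Real.log (g t) + δ * Real.log (s t)) =
          -((n : ℝ) * (1 / n)) * Real.log (g t) - n * δ * (Real.log (s t) + Real.log (g t)) := by
        ring
      rw [h6, h5]
      linarith)
    (by
      intro t h
      have h3 := congrFun h 0
      simp only [Fin.cons_zero, Pi.zero_apply] at h3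
      have := hg t
      omega)
    (by
      intro t l
      rw [Fin.sum_univ_succ]
      simp only [Fin.cons_zero, Fin.cons_succ, he0, hmon0]
      refine Fin.cases ?_ (fun l' => ?_) l (motive := fun l => |frm x l 0 *
        ((((s t : ℕ) : ℤ) * ((g t : ℕ) : ℤ) : ℤ) : ℝ) + ∑ i : Fin n, frm x l i.succ *
          ((1 * P t i : ℤ) : ℝ)| ≤ (Fin.cons ((s t : ℝ) * g t)
        (fun _ => ((g t : ℝ) ^ (1 / (n : ℝ) + δ) * (s t : ℝ) ^ δ)⁻¹) : Fin (n + 1) → ℝ) l)
      · have h3 : ∀ i : Fin n, frm x 0 i.succ = 0 := fun i => rfl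
        have h4 : frm x 0 0 = 1 := rfl
        simp only [Fin.cons_zero, h3, h4, zero_mul, Finset.sum_const_zero, add_zero, one_mul]
        push_cast
        rw [abs_of_nonneg (mul_nonneg (hs0 t).le (hg0 t).le)]
      · have h3 : ∀ i : Fin n, frm x l'.succ i.succ = if l' = i then -1 else 0 := fun i => rfl
        have h4 : frm x l'.succ 0 = x l' := rfl
        simp only [Fin.cons_succ, h3, h4, ite_mul, zero_mul]
        rw [Finset.sum_ite_eq Finset.univ l']
        simp only [Finset.mem_univ, if_true, one_mul]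
        have h5 := (hP t l').le
        have h6 : (1 : ℝ) / ((t : ℝ) + 1) ≤ 1 := by
          rw [div_le_one (by positivity)]
          have : (0 : ℝ) ≤ t := Nat.cast_nonneg t
          linarith
        have h7 := hpw t
        rw [← one_div, le_div_iff₀ (by linarith)]
        have e1 : x l' * ((((s t : ℕ) : ℤ) * ((g t : ℕ) : ℤ) : ℤ) : ℝ) + -1 * ((P t l' : ℤ) : ℝ) =
            (s t : ℝ) * g t * x l' - P t l' := by
          push_cast
          ring
        rw [e1, mul_comm]
        linarith)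
  -- the relation
  set θ : ℝ := (y 0 : ℝ) + ∑ i : Fin n, (y i.succ : ℝ) * x i with hθ
  have hθ0 : θ ≠ 0 := by
    intro h
    have h3 := hlin (y 0) (fun i => y i.succ) h
    apply hy
    funext i
    refine Fin.cases ?_ (fun i' => ?_) i (motive := fun i => y i = (0 : Fin (n + 1) → ℤ) i)
    · exact h3.1
    · exact congrFun h3.2 i'
  set Y : ℝ := ∑ i : Fin n, |(y i.succ : ℝ)| with hY
  obtain ⟨t, ht1, ht2⟩ := (hfr.and_eventually (hinf ⌈Y / |θ|⌉₊)).exists
  rw [Fin.sum_univ_succ] at ht1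
  simp only [Fin.cons_zero, Fin.cons_succ, he0, hmon0] at ht1
  have h3 : (y 0 : ℝ) * ((s t : ℝ) * g t) + ∑ i : Fin n, (y i.succ : ℝ) * P t i = 0 := by
    have h4 : ((y 0 * (((s t : ℕ) : ℤ) * ((g t : ℕ) : ℤ)) +
      ∑ i : Fin n, y i.succ * (1 * P t i) : ℤ) : ℝ) = 0 := by rw [ht1]; simp
    push_cast at h4
    simp only [one_mul] at h4
    exact h4
  have h4 : θ * ((s t : ℝ) * g t) =
      ∑ i : Fin n, (y i.succ : ℝ) * ((s t : ℝ) * g t * x i - P t i) := by
    simp only [mul_sub, Finset.sum_sub_distrib]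
    rw [hθ, add_mul, Finset.sum_mul]
    have e1 : ∑ i : Fin n, (y i.succ : ℝ) * ((s t : ℝ) * g t * x i) =
        ∑ i : Fin n, (y i.succ : ℝ) * x i * ((s t : ℝ) * g t) :=
      Finset.sum_congr rfl fun i _ => by ring
    rw [e1]
    linarith
  have h5 : |θ| * ((s t : ℝ) * g t) ≤ Y := by
    have e1 : |θ| * ((s t : ℝ) * g t) = |θ * ((s t : ℝ) * g t)| := by
      rw [abs_mul, abs_of_nonneg (mul_nonneg (hs0 t).le (hg0 t).le)]
    rw [e1, h4, hY]
    refine (Finset.abs_sum_le_sum_abs _ _).trans (Finset.sum_le_sum fun i _ => ?_)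
    rw [abs_mul]
    have := mul_le_mul_of_nonneg_left (hsmall1 t i) (abs_nonneg (y i.succ : ℝ))
    rwa [mul_one] at this
  have h6 : 0 < |θ| := abs_pos.2 hθ0
  have h7 : (s t : ℝ) * g t ≤ Y / |θ| := by
    rw [le_div_iff₀ h6]
    linarith
  have h8 : (⌈Y / |θ|⌉₊ : ℝ) < (s t : ℝ) * g t := by exact_mod_cast ht2
  have h9 := Nat.le_ceil (Y / |θ|)
  linarith

end Pool.Agent.Q263.JM
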