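import Mathlib

/-!
From windows along progressions to windows; smooth numbers.
-/

set_option autoImplicit false

open Finset

namespace Pool.Agent.Q263.JM

lemma shift_one (f : ℕ → ℝ) (h0 : ∀ p, 0 ≤ f p) (h1 : ∀ p, f p ≤ 1) (N : ℕ) :
    |∑ u ∈ range N, f (u + 1) - ∑ u ∈ range N, f u| ≤ 1 := by
  have h2 := Finset.sum_range_succ' f N
  have h3 := Finset.sum_range_succ f N
  have h4 : ∑ u ∈ range N, f (u + 1) - ∑ u ∈ range N, f u = f N - f 0 := by linarith
  rw [h4, abs_le]
  constructor
  · linarith [h0 N, h1 0]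
  · linarith [h1 N, h0 0]

lemma shift (f : ℕ → ℝ) (h0 : ∀ p, 0 ≤ f p) (h1 : ∀ p, f p ≤ 1) (N h : ℕ) :
    |∑ u ∈ range N, f (u + h) - ∑ u ∈ range N, f u| ≤ h := by
  induction h with
  | zero => simp
  | succ h ih =>
    have h2 := shift_one (fun u => f (u + h)) (fun p => h0 _) (fun p => h1 _) N
    have e1 : ∑ u ∈ range N, f (u + (h + 1)) = ∑ u ∈ range N, f (u + 1 + h) :=
      Finset.sum_congr rfl fun u _ => by congr 1; ring
    rw [e1]
    have h3 := abs_sub_le (∑ u ∈ range N, f (u + 1 + h)) (∑ u ∈ range N, f (u + h))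
      (∑ u ∈ range N, f u)
    push_cast
    linarith

/-- averaging -/
theorem avg (f : ℕ → ℝ) (h0 : ∀ p, 0 ≤ f p) (h1 : ∀ p, f p ≤ 1) (L k s N : ℕ) (hL : 1 ≤ L)
    (ρ η : ℝ) (h : ∀ u < N, |∑ i ∈ range L, f (s + u + k * i) - L * ρ| ≤ η * L) :
    |∑ u ∈ range N, f (s + u) - N * ρ| ≤ η * N + k * L := by
  have hL0 : (0 : ℝ) < L := by exact_mod_cast hL
  have h2 : |∑ u ∈ range N, ∑ i ∈ range L, f (s + u + k * i) - N * (L * ρ)| ≤ N * (η * L) := by
    have e1 : ∑ u ∈ range N, ∑ i ∈ range L, f (s + u + k * i) - N * (L * ρ) =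
        ∑ u ∈ range N, (∑ i ∈ range L, f (s + u + k * i) - L * ρ) := by
      rw [Finset.sum_sub_distrib, Finset.sum_const, Finset.card_range, nsmul_eq_mul]
    rw [e1]
    refine (Finset.abs_sum_le_sum_abs _ _).trans ?_
    calc ∑ u ∈ range N, |∑ i ∈ range L, f (s + u + k * i) - L * ρ|
        ≤ ∑ _u ∈ range N, η * L :=
          Finset.sum_le_sum fun u hu => h u (Finset.mem_range.1 hu)
      _ = _ := by rw [Finset.sum_const, Finset.card_range, nsmul_eq_mul]
  have h3 : |∑ u ∈ range N, ∑ i ∈ range L, f (s + u + k * i) -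
      L * ∑ u ∈ range N, f (s + u)| ≤ L * (k * L) := by
    rw [Finset.sum_comm]
    have e1 : ∑ i ∈ range L, ∑ u ∈ range N, f (s + u + k * i) -
        L * ∑ u ∈ range N, f (s + u) =
        ∑ i ∈ range L, (∑ u ∈ range N, f (s + u + k * i) - ∑ u ∈ range N, f (s + u)) := by
      rw [Finset.sum_sub_distrib, Finset.sum_const, Finset.card_range, nsmul_eq_mul]
    rw [e1]
    refine (Finset.abs_sum_le_sum_abs _ _).trans ?_
    calc ∑ i ∈ range L, |∑ u ∈ range N, f (s + u + k * i) - ∑ u ∈ range N, f (s + u)|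
        ≤ ∑ _i ∈ range L, (k : ℝ) * L := by
          refine Finset.sum_le_sum fun i hi => ?_
          have h4 : |∑ u ∈ range N, f (s + (u + k * i)) - ∑ u ∈ range N, f (s + u)| ≤
              ((k * i : ℕ) : ℝ) :=
            shift (fun u => f (s + u)) (fun p => h0 _) (fun p => h1 _) N (k * i)
          have e2 : ∑ u ∈ range N, f (s + (u + k * i)) = ∑ u ∈ range N, f (s + u + k * i) :=
            Finset.sum_congr rfl fun u _ => by rw [add_assoc]
          rw [e2] at h4
          refine h4.trans ?_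
          have h5 : (i : ℝ) ≤ L := by exact_mod_cast (Finset.mem_range.1 hi).le
          push_cast
          exact mul_le_mul_of_nonneg_left h5 (Nat.cast_nonneg _)
      _ = _ := by rw [Finset.sum_const, Finset.card_range, nsmul_eq_mul]
  have h4 : (L : ℝ) * |∑ u ∈ range N, f (s + u) - N * ρ| ≤ L * (η * N + k * L) := by
    have e1 : (L : ℝ) * |∑ u ∈ range N, f (s + u) - N * ρ| =
        |(∑ u ∈ range N, ∑ i ∈ range L, f (s + u + k * i) - N * (L * ρ)) -
          (∑ u ∈ range N, ∑ i ∈ range L, f (s + u + k * i) - L * ∑ u ∈ range N, f (s + u))| := by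
      rw [← abs_of_pos hL0, ← abs_mul, abs_of_pos hL0]
      congr 1
      ring
    rw [e1]
    refine (abs_sub _ _).trans ?_
    linarith
  exact le_of_mul_le_mul_left h4 hL0

/-- the number of smooth numbers up to `2 ^ J` -/
theorem card_smooth (B J : ℕ) (T : Finset ℕ) (h1 : ∀ t ∈ T, 1 ≤ t ∧ t < 2 ^ J)
    (h2 : ∀ t ∈ T, ∀ p : ℕ, p.Prime → p ∣ t → p ≤ B) : T.card ≤ (J + 1) ^ (B + 1) := by
  classical
  have h3 : T.card ≤ (Fintype.piFinset (fun _ : Fin (B + 1) => Finset.range (J + 1))).card := by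
    refine Finset.card_le_card_of_injOn (fun t i => t.factorization (i : ℕ)) ?_ ?_
    · intro t ht
      rw [Finset.mem_coe] at ht
      rw [Finset.mem_coe, Fintype.mem_piFinset]
      intro i
      rw [Finset.mem_range]
      by_cases hp : (i : ℕ).Prime
      · have h4 : (i : ℕ) ^ t.factorization (i : ℕ) ≤ t :=
          Nat.ordProj_le (i : ℕ) (by have := (h1 t ht).1; omega)
        have h5 : 2 ^ t.factorization (i : ℕ) ≤ (i : ℕ) ^ t.factorization (i : ℕ) :=
          Nat.pow_le_pow_left hp.two_le _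
        have h6 : 2 ^ t.factorization (i : ℕ) < 2 ^ J := by
          have := (h1 t ht).2
          omega
        have h7 := (Nat.pow_lt_pow_iff_right (by norm_num : 1 < 2)).1 h6
        simp only
        omega
      · simp only
        rw [Nat.factorization_eq_zero_of_not_prime _ hp]
        omega
    · intro t ht t' ht' heq
      rw [Finset.mem_coe] at ht ht'
      apply Nat.eq_of_factorization_eq (by have := (h1 t ht).1; omega)
        (by have := (h1 t' ht').1; omega)
      intro p
      by_cases hp : p ≤ B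
      · exact congrFun heq ⟨p, by omega⟩
      · by_cases hpp : p.Prime
        · rw [Nat.factorization_eq_zero_of_not_dvd (fun h => hp (h2 t ht p hpp h)),
            Nat.factorization_eq_zero_of_not_dvd (fun h => hp (h2 t' ht' p hpp h))]
        · rw [Nat.factorization_eq_zero_of_not_prime _ hpp,
            Nat.factorization_eq_zero_of_not_prime _ hpp]
  rw [Fintype.card_piFinset_const, Finset.card_range] at h3
  exact h3

end Pool.Agent.Q263.JM
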