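import Mathlib

/-!
Words over a finite alphabet in which a letter has a wrong frequency.
-/

set_option autoImplicit false

open Finset

namespace Pool.Agent.Q263.JM

variable {α : Type} [Fintype α] [DecidableEq α]

/-- the number of places at which the word has the letter `a` -/
def occw {L : ℕ} (a : α) (V : Fin L → α) : ℕ := (univ.filter (fun i => V i = a)).card

lemma moment (a : α) (l : ℝ) (L : ℕ) :
    ∑ V : Fin L → α, Real.exp (l * occw a V) = (Real.exp l + (Fintype.card α - 1)) ^ L := by
  have h1 : ∀ V : Fin L → α, Real.exp (l * occw a V) =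
      ∏ i, (if V i = a then Real.exp l else 1) := by
    intro V
    rw [Finset.prod_ite, Finset.prod_const, Finset.prod_const_one, mul_one, ← Real.exp_nat_mul]
    congr 1
    unfold occw
    ring
  simp_rw [h1]
  rw [← Fintype.sum_pow (fun c : α => if c = a then Real.exp l else 1) L]
  congr 1
  rw [Finset.sum_ite, Finset.sum_const, Finset.sum_const]
  have h2 : (univ.filter (fun c : α => c = a)) = {a} := by
    ext d
    simp
  have h3 : (univ.filter (fun c : α => ¬ c = a)).card = Fintype.card α - 1 := by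
    have := Finset.card_filter_add_card_filter_not (s := (univ : Finset α)) (p := fun c => c = a)
    rw [h2, Finset.card_univ, Finset.card_singleton] at this
    omega
  have h4 : 1 ≤ Fintype.card α := Fintype.card_pos_iff.2 ⟨a⟩
  rw [h2, h3, Finset.card_singleton, nsmul_eq_mul, nsmul_eq_mul, Nat.cast_sub h4]
  push_cast
  ring

/-- the key inequality for the moment generating function -/
lemma mgf_bound (p l : ℝ) (hp0 : 0 ≤ p) (hp1 : p ≤ 1) (hl : |l| ≤ 1) :
    p * Real.exp l + (1 - p) ≤ Real.exp (p * l + l ^ 2) := by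
  have h1 := Real.abs_exp_sub_one_sub_id_le hl
  have h2 : Real.exp l ≤ 1 + l + l ^ 2 := by
    have := (abs_le.1 h1).2
    linarith
  have h3 : p * Real.exp l + (1 - p) ≤ 1 + (p * l + l ^ 2) := by
    have : p * Real.exp l ≤ p * (1 + l + l ^ 2) := mul_le_mul_of_nonneg_left h2 hp0
    nlinarith [sq_nonneg l]
  have h4 := Real.add_one_le_exp (p * l + l ^ 2)
  linarith

lemma markov (a : α) (l u : ℝ) (hl : |l| ≤ 1) (L : ℕ) (P : (Fin L → α) → Prop)
    [DecidablePred P] (hP : ∀ V, P V → u ≤ l * occw a V) :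
    ((univ.filter P).card : ℝ) ≤ Real.exp (-u) *
      (Real.exp ((1 / Fintype.card α * l + l ^ 2) * L) * (Fintype.card α : ℝ) ^ L) := by
  have hK : 1 ≤ Fintype.card α := Fintype.card_pos_iff.2 ⟨a⟩
  have hK1 : (1 : ℝ) ≤ Fintype.card α := by exact_mod_cast hK
  have hK0 : (0 : ℝ) < Fintype.card α := by linarith
  have h1 := mgf_bound (1 / (Fintype.card α : ℝ)) l (by positivity)
    (by rw [div_le_one hK0]; exact hK1) hl
  have h2 : Real.exp l + ((Fintype.card α : ℝ) - 1) = (1 / (Fintype.card α : ℝ) * Real.exp l +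
      (1 - 1 / (Fintype.card α : ℝ))) * Fintype.card α := by field_simp
  have h3 : 0 ≤ 1 / (Fintype.card α : ℝ) * Real.exp l + (1 - 1 / (Fintype.card α : ℝ)) := by
    have : (1 : ℝ) / Fintype.card α ≤ 1 := by rw [div_le_one hK0]; exact hK1
    have h4 : 0 ≤ 1 / (Fintype.card α : ℝ) * Real.exp l := by positivity
    linarith
  have key : (Real.exp l + ((Fintype.card α : ℝ) - 1)) ^ L
      ≤ Real.exp ((1 / (Fintype.card α : ℝ) * l + l ^ 2) * L) * (Fintype.card α : ℝ) ^ L := by
    rw [h2, mul_pow]
    apply mul_le_mul_of_nonneg_right _ (by positivity)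
    calc (1 / (Fintype.card α : ℝ) * Real.exp l + (1 - 1 / (Fintype.card α : ℝ))) ^ L
        ≤ (Real.exp (1 / (Fintype.card α : ℝ) * l + l ^ 2)) ^ L := pow_le_pow_left₀ h3 h1 L
      _ = _ := by rw [← Real.exp_nat_mul]; ring_nf
  refine le_trans ?_ (mul_le_mul_of_nonneg_left key (Real.exp_pos _).le)
  rw [← moment a l L, Finset.mul_sum, Finset.card_filter]
  push_cast
  apply Finset.sum_le_sum
  intro z _
  split_ifs with h
  · rw [← Real.exp_add]
    have := hP z h
    exact Real.one_le_exp (by linarith)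
  · positivity

/-- **Words with a wrong frequency of a letter.** -/
theorem bad_words (a : α) (η : ℝ) (hη : 0 < η) (hη1 : η ≤ 1) (L : ℕ) :
    (((univ : Finset (Fin L → α)).filter
      (fun V => η * L < |(occw a V : ℝ) - L / Fintype.card α|)).card : ℝ)
      ≤ 2 * Real.exp (-(η ^ 2 / 4) * L) * (Fintype.card α : ℝ) ^ L := by
  classical
  have hK : 1 ≤ Fintype.card α := Fintype.card_pos_iff.2 ⟨a⟩
  have hK1 : (1 : ℝ) ≤ Fintype.card α := by exact_mod_cast hK
  have hK0 : (0 : ℝ) < Fintype.card α := by linarith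
  have hsplit : (univ : Finset (Fin L → α)).filter
      (fun V => η * L < |(occw a V : ℝ) - L / Fintype.card α|)
      ⊆ univ.filter (fun V : Fin L → α => η * L ≤ (occw a V : ℝ) - L / Fintype.card α)
        ∪ univ.filter (fun V : Fin L → α => η * L ≤ -((occw a V : ℝ) - L / Fintype.card α)) := by
    intro z hz
    rw [Finset.mem_union, Finset.mem_filter, Finset.mem_filter]
    rw [Finset.mem_filter] at hz
    rcases lt_abs.1 hz.2 with h | h
    · exact Or.inl ⟨hz.1, h.le⟩
    · exact Or.inr ⟨hz.1, h.le⟩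
  have hl1 : |η / 2| ≤ 1 := by rw [abs_of_pos (by linarith)]; linarith
  have hl2 : |-(η / 2)| ≤ 1 := by rw [abs_neg]; exact hl1
  have hU := markov a (η / 2) (η / 2 * (η * L + L / Fintype.card α)) hl1 L
    (fun V => η * L ≤ (occw a V : ℝ) - L / Fintype.card α) (by
      intro z hz
      apply mul_le_mul_of_nonneg_left _ (by linarith)
      linarith)
  have hD := markov a (-(η / 2)) (η / 2 * (η * L - L / Fintype.card α)) hl2 L
    (fun V => η * L ≤ -((occw a V : ℝ) - L / Fintype.card α)) (by
      intro z hz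
      have : η / 2 * (η * L - L / Fintype.card α) ≤ η / 2 * (-(occw a z : ℝ)) :=
        mul_le_mul_of_nonneg_left (by linarith) (by linarith)
      linarith)
  have e1 : Real.exp (-(η / 2 * (η * L + L / Fintype.card α))) *
      (Real.exp ((1 / Fintype.card α * (η / 2) + (η / 2) ^ 2) * L) * (Fintype.card α : ℝ) ^ L) =
      Real.exp (-(η ^ 2 / 4) * L) * (Fintype.card α : ℝ) ^ L := by
    rw [← mul_assoc, ← Real.exp_add]
    congr 2
    field_simp
    ring
  have e2 : Real.exp (-(η / 2 * (η * L - L / Fintype.card α))) *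
      (Real.exp ((1 / Fintype.card α * (-(η / 2)) + (-(η / 2)) ^ 2) * L) *
        (Fintype.card α : ℝ) ^ L) =
      Real.exp (-(η ^ 2 / 4) * L) * (Fintype.card α : ℝ) ^ L := by
    rw [← mul_assoc, ← Real.exp_add]
    congr 2
    field_simp
    ring
  rw [e1] at hU
  rw [e2] at hD
  have h1 : (((univ : Finset (Fin L → α)).filter
      (fun V => η * L < |(occw a V : ℝ) - L / Fintype.card α|)).card : ℝ) ≤
      ((univ.filter (fun V : Fin L → α =>
        η * L ≤ (occw a V : ℝ) - L / Fintype.card α)).card : ℝ) +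
      ((univ.filter (fun V : Fin L → α =>
        η * L ≤ -((occw a V : ℝ) - L / Fintype.card α))).card : ℝ) := by
    have := (Finset.card_le_card hsplit).trans (Finset.card_union_le _ _)
    exact_mod_cast this
  linarith

end Pool.Agent.Q263.JM
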