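import Mathlib
import Pool.Agent.Q263.JM.Cher

/-!
One window of digits: separated points and words with a wrong frequency of a letter.
-/

set_option autoImplicit false

open Finset

namespace Pool.Agent.Q263.JM

lemma fract_pow (B : ℕ) (y : ℝ) (L : ℕ) :
    Int.fract ((B : ℝ) ^ L * Int.fract y) = Int.fract ((B : ℝ) ^ L * y) := by
  have h1 : (B : ℝ) ^ L * y = (B : ℝ) ^ L * Int.fract y + (((B : ℤ) ^ L * ⌊y⌋ : ℤ) : ℝ) := by
    push_cast
    rw [← mul_add, Int.fract_add_floor]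
  rw [h1, Int.fract_add_intCast]

lemma floor_step (B : ℕ) (y : ℝ) (L : ℕ) :
    ⌊(B : ℝ) ^ (L + 1) * Int.fract y⌋ = (B : ℤ) * ⌊(B : ℝ) ^ L * Int.fract y⌋ +
      ⌊(B : ℝ) * Int.fract ((B : ℝ) ^ L * y)⌋ := by
  set w := (B : ℝ) ^ L * Int.fract y with hw
  have h1 : (B : ℝ) ^ (L + 1) * Int.fract y =
      (B : ℝ) * Int.fract w + (((B : ℤ) * ⌊w⌋ : ℤ) : ℝ) := by
    rw [pow_succ']
    push_cast
    rw [← mul_add, Int.fract_add_floor, hw]
    ring
  rw [h1, Int.floor_add_intCast, hw, fract_pow, add_comm]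

/-- equal digits, equal beginnings -/
lemma floor_eq_of_digits (B : ℕ) (y y' : ℝ) (L : ℕ)
    (h : ∀ i < L, ⌊(B : ℝ) * Int.fract ((B : ℝ) ^ i * y)⌋₊ =
      ⌊(B : ℝ) * Int.fract ((B : ℝ) ^ i * y')⌋₊) :
    ⌊(B : ℝ) ^ L * Int.fract y⌋ = ⌊(B : ℝ) ^ L * Int.fract y'⌋ := by
  induction L with
  | zero =>
    have e1 : ∀ z : ℝ, ⌊(B : ℝ) ^ 0 * Int.fract z⌋ = 0 := by
      intro z
      rw [pow_zero, one_mul, Int.floor_fract]
    rw [e1, e1]
  | succ L ih =>
    have h1 := ih fun i hi => h i (by omega)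
    have h2 := h L (by omega)
    have e1 : ∀ z : ℝ, (⌊(B : ℝ) * Int.fract z⌋₊ : ℤ) = ⌊(B : ℝ) * Int.fract z⌋ := by
      intro z
      exact Int.natCast_floor_eq_floor (mul_nonneg (Nat.cast_nonneg _) (Int.fract_nonneg _))
    rw [floor_step, floor_step, h1, ← e1, ← e1, h2]

/-- separated points in a small cube -/
lemma card_cube {n : ℕ} (P : Finset ℕ) (f : ℕ → Fin n → ℝ) (D R : ℕ) (hD : 1 ≤ D) (hR : 1 ≤ R)
    (W : Fin n → ℤ) (h1 : ∀ m ∈ P, ∀ l, ⌊(D : ℝ) * f m l⌋ = W l)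
    (h2 : ∀ m ∈ P, ∀ m' ∈ P, m ≠ m' → ∃ l, 1 / (R : ℝ) ≤ |f m l - f m' l|) :
    (P.card : ℝ) ≤ ((R : ℝ) / D + 2) ^ n := by
  classical
  have hD0 : (0 : ℝ) < D := by exact_mod_cast hD
  have hR0 : (0 : ℝ) < R := by exact_mod_cast hR
  set K : ℕ := ⌊(R : ℝ) / D⌋₊ + 2 with hK
  have hlow : ∀ m ∈ P, ∀ l, (R : ℝ) * W l / D ≤ R * f m l := by
    intro m hm l
    have h3 := Int.floor_le ((D : ℝ) * f m l)
    rw [h1 m hm l] at h3
    rw [div_le_iff₀ hD0]
    nlinarith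
  have hupp : ∀ m ∈ P, ∀ l, (R : ℝ) * f m l < R * W l / D + R / D := by
    intro m hm l
    have h3 := Int.lt_floor_add_one ((D : ℝ) * f m l)
    rw [h1 m hm l] at h3
    rw [← add_div, lt_div_iff₀ hD0]
    nlinarith
  have hcard : P.card ≤ (Fintype.piFinset (fun _ : Fin n => Finset.range K)).card := by
    refine Finset.card_le_card_of_injOn
      (fun m l => (⌊(R : ℝ) * f m l⌋ - ⌊(R : ℝ) * W l / D⌋).toNat) ?_ ?_
    · intro m hm
      rw [Finset.mem_coe] at hm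
      rw [Finset.mem_coe, Fintype.mem_piFinset]
      intro l
      rw [Finset.mem_range]
      have h3 : ⌊(R : ℝ) * f m l⌋ < ⌊(R : ℝ) * W l / D⌋ + K := by
        rw [Int.floor_lt]
        push_cast
        have h4 := hupp m hm l
        have h5 := Int.lt_floor_add_one ((R : ℝ) * W l / D)
        have h6 := Nat.lt_floor_add_one ((R : ℝ) / D)
        rw [hK]
        push_cast
        linarith
      have h7 : ⌊(R : ℝ) * W l / D⌋ ≤ ⌊(R : ℝ) * f m l⌋ := Int.floor_le_floor (hlow m hm l)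
      have h8 : (0 : ℤ) ≤ ⌊(R : ℝ) * f m l⌋ - ⌊(R : ℝ) * W l / D⌋ := by linarith
      have h9 := Int.toNat_of_nonneg h8
      have h10 : (((⌊(R : ℝ) * f m l⌋ - ⌊(R : ℝ) * W l / D⌋).toNat : ℕ) : ℤ) < K := by
        rw [h9]
        linarith
      exact_mod_cast h10
    · intro m hm m' hm' heq
      rw [Finset.mem_coe] at hm hm'
      by_contra hne
      obtain ⟨l, hl⟩ := h2 m hm m' hm' hne
      have h3 := congrFun heq l
      simp only at h3
      have h7 : ∀ m ∈ P, (0 : ℤ) ≤ ⌊(R : ℝ) * f m l⌋ - ⌊(R : ℝ) * W l / D⌋ := by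
        intro m hm
        have := Int.floor_le_floor (hlow m hm l)
        linarith
      have h8 : ⌊(R : ℝ) * f m l⌋ = ⌊(R : ℝ) * f m' l⌋ := by
        have e1 := Int.toNat_of_nonneg (h7 m hm)
        have e2 := Int.toNat_of_nonneg (h7 m' hm')
        rw [h3, e2] at e1
        linarith
      have h9 := Int.abs_sub_lt_one_of_floor_eq_floor h8
      rw [← mul_sub, abs_mul, abs_of_pos hR0] at h9
      rw [div_le_iff₀ hR0] at hl
      linarith
  rw [Fintype.card_piFinset_const, Finset.card_range] at hcard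
  have h3 : (K : ℝ) ≤ (R : ℝ) / D + 2 := by
    rw [hK]
    push_cast
    have := Nat.floor_le (show 0 ≤ (R : ℝ) / D by positivity)
    linarith
  calc (P.card : ℝ) ≤ ((K ^ n : ℕ) : ℝ) := by exact_mod_cast hcard
    _ = (K : ℝ) ^ n := by push_cast; rfl
    _ ≤ _ := pow_le_pow_left₀ (Nat.cast_nonneg _) h3 n

/-- **One window.** -/
theorem window {n : ℕ} (B L M R : ℕ) (hB : 1 ≤ B) (hR : 1 ≤ R) (Y : ℕ → Fin n → ℝ)
    (hsep : ∀ m < M, ∀ m' < M, m ≠ m' → ∀ p : Fin n → ℤ, ∃ l,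
      1 / (R : ℝ) ≤ |Y m l - Y m' l - p l|) (a : Fin n → ℕ) (ha : ∀ l, a l < B)
    (η : ℝ) (hη : 0 < η) (hη1 : η ≤ 1) :
    (((range M).filter (fun m => η * L < |((((range L).filter (fun i => ∀ l,
      ⌊(B : ℝ) * Int.fract ((B : ℝ) ^ i * Y m l)⌋₊ = a l)).card : ℕ) : ℝ) -
        L / (B : ℝ) ^ n|)).card : ℝ) ≤
      2 * Real.exp (-(η ^ 2 / 4) * L) * ((B : ℝ) ^ n) ^ L * ((R : ℝ) / (B : ℝ) ^ L + 2) ^ n := by
  classical
  have hB0 : (0 : ℝ) < B := by exact_mod_cast hB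
  have hlt : ∀ z : ℝ, ⌊(B : ℝ) * Int.fract z⌋₊ < B := by
    intro z
    rw [Nat.floor_lt (mul_nonneg hB0.le (Int.fract_nonneg _))]
    have := Int.fract_lt_one z
    nlinarith
  let V : ℕ → (Fin L → (Fin n → Fin B)) := fun m i l =>
    ⟨⌊(B : ℝ) * Int.fract ((B : ℝ) ^ (i : ℕ) * Y m l)⌋₊, hlt _⟩
  let a' : Fin n → Fin B := fun l => ⟨a l, ha l⟩
  have hcount : ∀ m, ((range L).filter (fun i => ∀ l,
      ⌊(B : ℝ) * Int.fract ((B : ℝ) ^ i * Y m l)⌋₊ = a l)).card = occw a' (V m) := by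
    intro m
    unfold occw
    symm
    refine Finset.card_bij (fun i _ => (i : ℕ)) ?_ ?_ ?_
    · intro i hi
      rw [Finset.mem_filter] at hi
      rw [Finset.mem_filter, Finset.mem_range]
      refine ⟨i.2, fun l => ?_⟩
      have := congrFun hi.2 l
      exact congrArg Fin.val this
    · intro i _ j _ h
      exact Fin.ext h
    · intro i hi
      rw [Finset.mem_filter, Finset.mem_range] at hi
      refine ⟨⟨i, hi.1⟩, ?_, rfl⟩
      rw [Finset.mem_filter]
      refine ⟨Finset.mem_univ _, ?_⟩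
      funext l
      exact Fin.ext (hi.2 l)
  have hcardα : (Fintype.card (Fin n → Fin B) : ℝ) = (B : ℝ) ^ n := by
    rw [Fintype.card_fun, Fintype.card_fin, Fintype.card_fin]
    push_cast
    rfl
  set Bad : Finset (Fin L → (Fin n → Fin B)) := univ.filter
    (fun W => η * L < |(occw a' W : ℝ) - L / Fintype.card (Fin n → Fin B)|) with hBad
  have hbad := bad_words a' η hη hη1 L
  rw [← hBad, hcardα] at hbad
  set S := (range M).filter (fun m => η * L < |((((range L).filter (fun i => ∀ l,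
      ⌊(B : ℝ) * Int.fract ((B : ℝ) ^ i * Y m l)⌋₊ = a l)).card : ℕ) : ℝ) -
        L / (B : ℝ) ^ n|) with hS
  have himg : S.image V ⊆ Bad := by
    intro W hW
    rw [Finset.mem_image] at hW
    obtain ⟨m, hm, rfl⟩ := hW
    rw [hS, Finset.mem_filter, hcount] at hm
    rw [hBad, Finset.mem_filter, hcardα]
    exact ⟨Finset.mem_univ _, hm.2⟩
  set Q : ℝ := ((R : ℝ) / (B : ℝ) ^ L + 2) ^ n with hQ
  have hfib : ∀ W ∈ S.image V, ((S.filter (fun m => V m = W)).card : ℝ) ≤ Q := by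
    intro W hW
    rw [Finset.mem_image] at hW
    obtain ⟨m0, hm0, rfl⟩ := hW
    have h3 := card_cube (S.filter (fun m => V m = V m0)) (fun m l => Int.fract (Y m l))
      (B ^ L) R (Nat.one_le_pow _ _ hB) hR
      (fun l => ⌊(B : ℝ) ^ L * Int.fract (Y m0 l)⌋) (by
        intro m hm l
        rw [Finset.mem_filter] at hm
        push_cast
        apply floor_eq_of_digits
        intro i hi
        have h4 := congrFun (congrFun hm.2 ⟨i, hi⟩) l
        exact congrArg Fin.val h4) (by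
        intro m hm m' hm' hne
        rw [Finset.mem_filter, hS, Finset.mem_filter, Finset.mem_range] at hm hm'
        obtain ⟨l, hl⟩ := hsep m hm.1.1 m' hm'.1.1 hne (fun l => ⌊Y m l⌋ - ⌊Y m' l⌋)
        refine ⟨l, hl.trans (le_of_eq ?_)⟩
        congr 1
        unfold Int.fract
        push_cast
        ring)
    rw [hQ]
    push_cast at h3
    exact h3
  have hsum : (S.card : ℝ) ≤ (S.image V).card * Q := by
    rw [Finset.card_eq_sum_card_image V S]
    push_cast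
    calc ∑ W ∈ S.image V, (((S.filter (fun m => V m = W)).card : ℕ) : ℝ)
        ≤ ∑ _W ∈ S.image V, Q := Finset.sum_le_sum hfib
      _ = _ := by rw [Finset.sum_const, nsmul_eq_mul]
  have hQ0 : 0 ≤ Q := by positivity
  calc (S.card : ℝ) ≤ (S.image V).card * Q := hsum
    _ ≤ (Bad.card : ℝ) * Q := by
        apply mul_le_mul_of_nonneg_right _ hQ0
        exact_mod_cast Finset.card_le_card himg
    _ ≤ (2 * Real.exp (-(η ^ 2 / 4) * L) * ((B : ℝ) ^ n) ^ L) * Q :=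
        mul_le_mul_of_nonneg_right hbad hQ0

end Pool.Agent.Q263.JM
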