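import Mathlib
import Pool.Agent.Q263.JM.Sub
import Pool.Agent.Q263.JM.Win
import Pool.Agent.Q263.JM.Avg

/-!
Almost all multiples of a vector of algebraic numbers are jointly normal up to `A log M` places.
-/

set_option autoImplicit false

open Finset Filter Topology

namespace Pool.Agent.Q263.JM

/-- the word of the `k` digits in base `b` after the first `n` digits, as an integer -/
noncomputable def wd (b k n : ℕ) (y : ℝ) : ℕ := ⌊(b : ℝ) ^ k * Int.fract ((b : ℝ) ^ n * y)⌋₊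

/-- all words of vectors of digits have the right frequencies -/
def Nrm {n : ℕ} (B w : ℕ) (D E : ℝ) (z : Fin n → ℝ) : Prop :=
  ∀ (b k s N : ℕ) (j : Fin n → ℕ), 2 ≤ b → b ≤ B → 1 ≤ k → k ≤ w → (∀ l, j l < b ^ k) →
    (s : ℝ) + N ≤ D →
    |((((range N).filter (fun i => ∀ l, wd b k (s + i) (z l) = j l)).card : ℕ) : ℝ) -
      N / ((b : ℝ) ^ k) ^ n| ≤ E

lemma wd_add (b k u i : ℕ) (y : ℝ) : wd b k (u + k * i) y =
    ⌊((b ^ k : ℕ) : ℝ) * Int.fract (((b ^ k : ℕ) : ℝ) ^ i * ((b : ℝ) ^ u * y))⌋₊ := by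
  unfold wd
  push_cast
  rw [pow_add, pow_mul]
  congr 3
  ring

/-- from windows along progressions to all windows -/
lemma nrm_of {n : ℕ} (B w L : ℕ) (hL : 1 ≤ L) (D E η : ℝ) (hη : 0 ≤ η) (hE : η * D + w * L ≤ E)
    (hE0 : 0 ≤ E) (z : Fin n → ℝ)
    (h : ∀ (b k u : ℕ) (j : Fin n → ℕ), 2 ≤ b → b ≤ B → 1 ≤ k → k ≤ w → (∀ l, j l < b ^ k) →
      (u : ℝ) < D → |((((range L).filter (fun i => ∀ l,
        ⌊((b ^ k : ℕ) : ℝ) * Int.fract (((b ^ k : ℕ) : ℝ) ^ i * ((b : ℝ) ^ u * z l))⌋₊ =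
          j l)).card : ℕ) : ℝ) - L / ((b ^ k : ℕ) : ℝ) ^ n| ≤ η * L) :
    Nrm B w D E z := by
  classical
  intro b k s N j hb hbB hk hkw hj hsN
  rcases Nat.eq_zero_or_pos N with hN | hN
  · subst hN
    simpa using hE0
  set f : ℕ → ℝ := fun p => if ∀ l, wd b k p (z l) = j l then 1 else 0 with hf
  have h0 : ∀ p, 0 ≤ f p := by
    intro p
    simp only [hf]
    split_ifs <;> norm_num
  have h1 : ∀ p, f p ≤ 1 := by
    intro p
    simp only [hf]
    split_ifs <;> norm_num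
  have h2 := avg f h0 h1 L k s N hL (1 / ((b : ℝ) ^ k) ^ n) η (by
    intro u hu
    have h3 := h b k (s + u) j hb hbB hk hkw hj (by
      have : (u : ℝ) < N := by exact_mod_cast hu
      push_cast
      linarith)
    have e1 : ∑ i ∈ range L, f (s + u + k * i) = ((((range L).filter (fun i => ∀ l,
        ⌊((b ^ k : ℕ) : ℝ) * Int.fract (((b ^ k : ℕ) : ℝ) ^ i * ((b : ℝ) ^ (s + u) * z l))⌋₊ =
          j l)).card : ℕ) : ℝ) := by
      rw [Finset.card_filter]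
      push_cast
      refine Finset.sum_congr rfl fun i _ => ?_
      simp only [hf, wd_add]
      push_cast
      rfl
    rw [e1]
    push_cast at h3 ⊢
    rw [mul_one_div]
    exact h3)
  have e1 : ∑ u ∈ range N, f (s + u) =
      ((((range N).filter (fun i => ∀ l, wd b k (s + i) (z l) = j l)).card : ℕ) : ℝ) := by
    rw [Finset.card_filter]
    push_cast
    rfl
  rw [e1, mul_one_div] at h2
  refine h2.trans (le_trans ?_ hE)
  have h3 : (N : ℝ) ≤ D := by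
    have : (0 : ℝ) ≤ s := Nat.cast_nonneg s
    linarith
  have h4 : (k : ℝ) ≤ w := by exact_mod_cast hkw
  have h5 : (0 : ℝ) ≤ L := Nat.cast_nonneg L
  nlinarith

/-- the separation of the points -/
lemma sep_of {n : ℕ} (x : Fin n → ℝ) (c0 δ : ℝ) (hδ : 0 < δ) (B : ℕ)
    (h : ∀ g s : ℕ, 1 ≤ g → 1 ≤ s → (∀ p : ℕ, p.Prime → p ∣ s → p ≤ B) →
      ∀ P : Fin n → ℤ, ∃ l, c0 ≤ (g : ℝ) ^ (1 / (n : ℝ) + δ) * (s : ℝ) ^ δ *
        |(s : ℝ) * g * x l - P l|)
    (M a q t b u R : ℕ) (ha : 1 ≤ a) (hq : 1 ≤ q) (ht : 1 ≤ t) (hb : 2 ≤ b) (hbB : b ≤ B)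
    (htB : ∀ p : ℕ, p.Prime → p ∣ t → p ≤ B) (hR1 : 1 ≤ R)
    (hR : ((a : ℝ) * M) ^ (1 / (n : ℝ) + δ) * ((b : ℝ) ^ u * t) ^ δ * q ≤ c0 * R)
    (y : Fin n → ℝ) :
    ∀ m < M, ∀ m' < M, m ≠ m' → ∀ p : Fin n → ℤ, ∃ l,
      1 / (R : ℝ) ≤ |(b : ℝ) ^ u * (y l + (a : ℝ) * t * m / q * x l) -
        (b : ℝ) ^ u * (y l + (a : ℝ) * t * m' / q * x l) - p l| := by
  have key : ∀ m < M, ∀ m' < m, ∀ p : Fin n → ℤ, ∃ l,
      1 / (R : ℝ) ≤ |(b : ℝ) ^ u * (y l + (a : ℝ) * t * m / q * x l) -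
        (b : ℝ) ^ u * (y l + (a : ℝ) * t * m' / q * x l) - p l| := by
    intro m hm m' hm' p
    obtain ⟨g0, rfl⟩ : ∃ g0, m = m' + g0 := ⟨m - m', by omega⟩
    have hg0 : 1 ≤ g0 := by omega
    obtain ⟨l, hl⟩ := h (a * g0) (b ^ u * t) (Nat.mul_pos ha hg0)
      (Nat.mul_pos (Nat.pow_pos (by omega)) ht) (by
        intro p hp hpd
        rcases (Nat.Prime.dvd_mul hp).1 hpd with h1 | h1
        · exact (Nat.le_of_dvd (by omega) (hp.dvd_of_dvd_pow h1)).trans hbB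
        · exact htB p hp h1) (fun l => q * p l)
    refine ⟨l, ?_⟩
    have hR0 : (0 : ℝ) < R := by exact_mod_cast hR1
    have hq0 : (0 : ℝ) < q := by exact_mod_cast hq
    have ha0 : (0 : ℝ) < a := by exact_mod_cast ha
    have hg1 : (0 : ℝ) < g0 := by exact_mod_cast hg0
    have hb0 : (0 : ℝ) < b := by exact_mod_cast (by omega : 0 < b)
    have ht0 : (0 : ℝ) < t := by exact_mod_cast ht
    set E : ℝ := |((b ^ u * t : ℕ) : ℝ) * ((a * g0 : ℕ) : ℝ) * x l - ((q * p l : ℤ) : ℝ)| with hE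
    have e1 : |(b : ℝ) ^ u * (y l + (a : ℝ) * t * ((m' + g0 : ℕ) : ℝ) / q * x l) -
        (b : ℝ) ^ u * (y l + (a : ℝ) * t * m' / q * x l) - p l| = E / q := by
      rw [hE, ← abs_of_pos hq0, ← abs_div, abs_of_pos hq0]
      congr 1
      push_cast
      field_simp
      ring
    rw [e1, div_le_div_iff₀ hR0 hq0, one_mul]
    set pw : ℝ := ((a * g0 : ℕ) : ℝ) ^ (1 / (n : ℝ) + δ) * ((b ^ u * t : ℕ) : ℝ) ^ δ with hpw
    have hpw0 : 0 < pw := by
      rw [hpw]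
      push_cast
      positivity
    have h1 : pw * q ≤ c0 * R := by
      refine le_trans ?_ hR
      rw [hpw]
      push_cast
      apply mul_le_mul_of_nonneg_right _ hq0.le
      apply mul_le_mul_of_nonneg_right _ (by positivity)
      apply Real.rpow_le_rpow (by positivity) _ (by positivity)
      apply mul_le_mul_of_nonneg_left _ ha0.le
      exact_mod_cast (by omega : g0 ≤ M)
    have h2 : c0 * R ≤ pw * (E * R) := by
      calc c0 * R ≤ (pw * E) * R := mul_le_mul_of_nonneg_right hl hR0.le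
        _ = _ := by ring
    exact le_of_mul_le_mul_left (h1.trans h2) hpw0
  intro m hm m' hm' hne p
  rcases lt_or_gt_of_ne hne with h1 | h1
  · obtain ⟨l, hl⟩ := key m' hm' m h1 (fun l => - p l)
    refine ⟨l, hl.trans (le_of_eq ?_)⟩
    rw [← abs_neg]
    congr 1
    push_cast
    ring
  · exact key m hm m' h1 p

/-- numerics -/
lemma ev_log (C c : ℝ) (hC : 0 ≤ C) (hc : 0 < c) (K : ℕ) :
    ∀ᶠ M : ℕ in atTop, C * (Real.log M) ^ K ≤ (M : ℝ) ^ c := by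
  have h1 := (isLittleO_log_rpow_rpow_atTop (K : ℝ) hc).def (show 0 < 1 / (C + 1) by positivity)
  have h2 : ∀ᶠ M : ℕ in atTop, ‖Real.log (M : ℝ) ^ (K : ℝ)‖ ≤ 1 / (C + 1) * ‖(M : ℝ) ^ c‖ :=
    tendsto_natCast_atTop_atTop.eventually h1
  filter_upwards [h2, eventually_ge_atTop 1] with M hM hM1
  have hMR : (1 : ℝ) ≤ M := by exact_mod_cast hM1
  have hl : 0 ≤ Real.log (M : ℝ) := Real.log_nonneg hMR
  rw [Real.rpow_natCast, Real.norm_of_nonneg (by positivity),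
    Real.norm_of_nonneg (by positivity)] at hM
  have h3 : 0 ≤ (M : ℝ) ^ c := by positivity
  calc C * Real.log M ^ K ≤ C * (1 / (C + 1) * (M : ℝ) ^ c) := mul_le_mul_of_nonneg_left hM hC
    _ = (C / (C + 1)) * (M : ℝ) ^ c := by ring
    _ ≤ 1 * (M : ℝ) ^ c := by
        apply mul_le_mul_of_nonneg_right _ h3
        rw [div_le_one (by positivity)]
        linarith
    _ = _ := one_mul _

end Pool.Agent.Q263.JM
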