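import Mathlib
import Pool.Agent.Q263.JM.Main

/-!
Almost all multiples of a vector of algebraic numbers are jointly normal up to `A log M` places:
the conclusion.
-/

set_option autoImplicit false
set_option maxHeartbeats 4000000

open Finset Filter Topology

namespace Pool.Agent.Q263.JM

open Classical in
/-- the bad `m` for one window -/
noncomputable def St {n : ℕ} {ι : Type} (σ : ι → ℕ → ℕ → ℕ → Fin n → ℝ) (x : Fin n → ℝ)
    (M L : ℕ) (η : ℝ)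
    (π : ι × ℕ × ℕ × ℕ × ℕ × ℕ × ℕ × (Fin n → ℕ)) : Finset ℕ :=
  if ∀ l, π.2.2.2.2.2.2.2 l < π.2.2.2.2.2.1 ^ π.2.2.2.2.2.2.1 then
    (range M).filter (fun m => η * L < |((((range L).filter (fun i => ∀ l,
      ⌊((π.2.2.2.2.2.1 ^ π.2.2.2.2.2.2.1 : ℕ) : ℝ) *
        Int.fract (((π.2.2.2.2.2.1 ^ π.2.2.2.2.2.2.1 : ℕ) : ℝ) ^ i *
          ((π.2.2.2.2.2.1 : ℝ) ^ π.2.2.2.2.1 *
            (σ π.1 π.2.1 π.2.2.1 π.2.2.2.1 l +
              (π.2.1 : ℝ) * π.2.2.2.1 * m / π.2.2.1 * x l)))⌋₊ =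
          π.2.2.2.2.2.2.2 l)).card : ℕ) : ℝ) -
        L / ((π.2.2.2.2.2.1 ^ π.2.2.2.2.2.2.1 : ℕ) : ℝ) ^ n|)
  else ∅

open Classical in
/-- the conclusion -/
theorem main {n : ℕ} (hn : 1 ≤ n) (x : Fin n → ℝ) (halg : ∀ i, IsAlgebraic ℚ (x i))
    (hlin : ∀ (c0 : ℤ) (c : Fin n → ℤ), (c0 : ℝ) + ∑ i, (c i : ℝ) * x i = 0 → c0 = 0 ∧ c = 0)
    (B w : ℕ) (A ε : ℝ) (hε : 0 < ε) :
    ∃ c : ℝ, 0 < c ∧ c ≤ 1 ∧ ∃ M0 : ℕ, ∀ M : ℕ, M0 ≤ M → ∀ (ι : Type) (Y : Finset ι)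
      (σ : ι → ℕ → ℕ → ℕ → Fin n → ℝ), (Y.card : ℝ) ≤ (M : ℝ) ^ c →
      (((range M).filter (fun m : ℕ => ¬ ∀ y ∈ Y, ∀ a q t : ℕ, 1 ≤ a → (a : ℝ) ≤ (M : ℝ) ^ c →
        1 ≤ q → (q : ℝ) ≤ (M : ℝ) ^ c → 1 ≤ t → (t : ℝ) ≤ (M : ℝ) ^ A →
        (∀ p : ℕ, p.Prime → p ∣ t → p ≤ B) →
        Nrm B w (A * Real.log M) (ε * Real.log M)
          (fun l => σ y a q t l + (a : ℝ) * t * m / q * x l))).card : ℝ) ≤
            (M : ℝ) ^ (1 - c) := by
  have hn0 : (0 : ℝ) < n := by exact_mod_cast hn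
  have hn1 : (1 : ℝ) ≤ n := by exact_mod_cast hn
  obtain ⟨η, hη0, hη1, hη2⟩ : ∃ η : ℝ, 0 < η ∧ η ≤ 1 ∧ η * |A| ≤ ε / 2 := by
    refine ⟨min 1 (ε / (2 * (|A| + 1))), lt_min one_pos (by positivity), min_le_left _ _, ?_⟩
    have h1 : min 1 (ε / (2 * (|A| + 1))) ≤ ε / (2 * (|A| + 1)) := min_le_right _ _
    have h2 : ε / (2 * (|A| + 1)) * |A| ≤ ε / 2 := by
      rw [div_mul_eq_mul_div, div_le_div_iff₀ (by positivity) (by norm_num)]
      nlinarith [abs_nonneg A]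
    exact (mul_le_mul_of_nonneg_right h1 (abs_nonneg A)).trans h2
  obtain ⟨lb, hlb⟩ : ∃ lb : ℝ, lb = Real.log ((B : ℝ) + 2) := ⟨_, rfl⟩
  have hlb0 : 0 < lb := by
    rw [hlb]
    apply Real.log_pos
    have : (0 : ℝ) ≤ B := Nat.cast_nonneg B
    linarith
  have hw0 : (0 : ℝ) ≤ w := Nat.cast_nonneg w
  obtain ⟨lam, hlam0, hlam1, hlam2⟩ : ∃ lam : ℝ, 0 < lam ∧ w * lam ≤ ε / 2 ∧
      w * lam * lb ≤ 1 / n := by
    refine ⟨min (ε / (2 * (w + 1))) (1 / (n * (w + 1) * lb)), lt_min (by positivity)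
      (by positivity), ?_, ?_⟩
    · have h1 : min (ε / (2 * ((w : ℝ) + 1))) (1 / (n * (w + 1) * lb)) ≤ ε / (2 * (w + 1)) :=
        min_le_left _ _
      have h2 : (w : ℝ) * (ε / (2 * (w + 1))) ≤ ε / 2 := by
        rw [mul_div_assoc', div_le_div_iff₀ (by positivity) (by norm_num)]
        nlinarith
      exact (mul_le_mul_of_nonneg_left h1 hw0).trans h2
    · have h1 : min (ε / (2 * ((w : ℝ) + 1))) (1 / (n * (w + 1) * lb)) ≤
          1 / (n * (w + 1) * lb) := min_le_right _ _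
      have h2 : (w : ℝ) * (1 / (n * (w + 1) * lb)) * lb ≤ 1 / n := by
        have e1 : (w : ℝ) * (1 / (n * (w + 1) * lb)) * lb = (w / (w + 1)) * (1 / n) := by
          field_simp
        rw [e1]
        have h3 : (w : ℝ) / (w + 1) ≤ 1 := by
          rw [div_le_one (by positivity)]
          linarith
        have h4 : (0 : ℝ) ≤ 1 / n := by positivity
        nlinarith
      exact (mul_le_mul_of_nonneg_right (mul_le_mul_of_nonneg_left h1 hw0) hlb0.le).trans h2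
  obtain ⟨ζ, hζ⟩ : ∃ ζ : ℝ, ζ = η ^ 2 * lam / 4 := ⟨_, rfl⟩
  have hζ0 : 0 < ζ := by rw [hζ]; positivity
  obtain ⟨H, hH⟩ : ∃ H : ℝ, H = |A| * (1 + lb) := ⟨_, rfl⟩
  have hH0 : 0 ≤ H := by rw [hH]; positivity
  obtain ⟨δ, hδ⟩ : ∃ δ : ℝ, δ = ζ / (4 * n * (3 + H)) := ⟨_, rfl⟩
  have hδ0 : 0 < δ := by rw [hδ]; positivity
  have hδ1 : n * δ * (3 + H) = ζ / 4 := by
    rw [hδ]
    field_simp
  obtain ⟨c, hc⟩ : ∃ c : ℝ, c = min 1 (ζ / (4 * (n + 8))) := ⟨_, rfl⟩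
  have hc0 : 0 < c := by rw [hc]; exact lt_min one_pos (by positivity)
  have hc1 : c ≤ 1 := by rw [hc]; exact min_le_left _ _
  have hc2 : c * (n + 8) ≤ ζ / 4 := by
    have h1 : c ≤ ζ / (4 * (n + 8)) := by rw [hc]; exact min_le_right _ _
    have h2 : ζ / (4 * ((n : ℝ) + 8)) * (n + 8) = ζ / 4 := by field_simp
    rw [← h2]
    exact mul_le_mul_of_nonneg_right h1 (by positivity)
  obtain ⟨c1, hc1', hsim1⟩ := simul hn x halg hlin B δ hδ0
  obtain ⟨c0, hc0', hc01, hsim⟩ : ∃ c0 : ℝ, 0 < c0 ∧ c0 ≤ 1 ∧ ∀ g s : ℕ, 1 ≤ g → 1 ≤ s →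
      (∀ p : ℕ, p.Prime → p ∣ s → p ≤ B) → ∀ P : Fin n → ℤ, ∃ l, c0 ≤
        (g : ℝ) ^ (1 / (n : ℝ) + δ) * (s : ℝ) ^ δ * |(s : ℝ) * g * x l - P l| := by
    refine ⟨min 1 c1, lt_min one_pos hc1', min_le_left _ _, fun g s hg hs hsm P => ?_⟩
    obtain ⟨l, hl⟩ := hsim1 g s hg hs hsm P
    exact ⟨l, (min_le_right _ _).trans hl⟩
  obtain ⟨E1, hE1⟩ : ∃ E1 : ℝ, E1 = (1 + c) * (1 / n + δ) + H * δ + c := ⟨_, rfl⟩
  have hE10 : 1 / (n : ℝ) ≤ E1 := by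
    rw [hE1]
    have h1 : 0 ≤ c * (1 / (n : ℝ) + δ) := by positivity
    have h2 : 0 ≤ H * δ := by positivity
    nlinarith
  have hE1n : n * E1 + 5 * c ≤ 1 + ζ := by
    have h1 : n * E1 = 1 + c + n * δ + c * (n * δ) + n * δ * H + n * c := by
      rw [hE1]
      field_simp
      ring
    have h2 : c * (n * δ) ≤ n * δ := by
      have : 0 ≤ n * δ := by positivity
      nlinarith
    have h3 : n * δ * (3 + H) = 3 * (n * δ) + n * δ * H := by ring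
    have h4 : 0 ≤ n * δ := by positivity
    nlinarith
  have hl2 : 0 < Real.log 2 := Real.log_pos (by norm_num)
  have hl21 : Real.log 2 ≤ 1 := by
    have := Real.log_two_lt_d9
    linarith
  obtain ⟨A', hA'⟩ : ∃ A' : ℝ, A' = |A| / Real.log 2 + 4 := ⟨_, rfl⟩
  have hA'0 : 0 < A' := by rw [hA']; positivity
  have hAA : |A| ≤ |A| / Real.log 2 := by
    rw [le_div_iff₀ hl2]
    nlinarith [abs_nonneg A]
  obtain ⟨C5, hC5⟩ : ∃ C5 : ℝ, C5 = A' ^ (B + 2) * B * w * ((B : ℝ) ^ w) ^ n *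
      (2 * Real.exp 1 * (6 / c0) ^ n) := ⟨_, rfl⟩
  have hC50 : 0 ≤ C5 := by rw [hC5]; positivity
  obtain ⟨M1, hM1⟩ := eventually_atTop.1 ((ev_log C5 c hC50 hc0 (B + 2)).and
    ((Real.tendsto_log_atTop.comp tendsto_natCast_atTop_atTop).eventually_ge_atTop
      (max 1 (1 / lam))))
  refine ⟨c, hc0, hc1, max M1 1, fun M hM ι Y σ hY => ?_⟩
  obtain ⟨hMa, hMb⟩ := hM1 M ((le_max_left _ _).trans hM)
  have hMR1 : (1 : ℝ) ≤ M := by exact_mod_cast (le_max_right _ _).trans hM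
  have hMR0 : (0 : ℝ) < M := by linarith
  obtain ⟨ℓ, hℓ⟩ : ∃ ℓ : ℝ, ℓ = Real.log M := ⟨_, rfl⟩
  simp only [Function.comp_apply] at hMb
  rw [← hℓ] at hMa hMb ⊢
  have hℓ1 : 1 ≤ ℓ := (le_max_left _ _).trans hMb
  have hℓ0 : 0 < ℓ := by linarith
  have hlamℓ : 1 ≤ lam * ℓ := by
    have h1 : 1 / lam ≤ ℓ := (le_max_right _ _).trans hMb
    rw [div_le_iff₀ hlam0] at h1
    linarith
  have hMpow : ∀ r : ℝ, (M : ℝ) ^ r = Real.exp (r * ℓ) := by
    intro r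
    rw [Real.rpow_def_of_pos hMR0, ← hℓ, mul_comm]
  obtain ⟨L, hL⟩ : ∃ L : ℕ, L = ⌊lam * ℓ⌋₊ := ⟨_, rfl⟩
  have hL1 : 1 ≤ L := by
    rw [hL]
    exact Nat.le_floor (by exact_mod_cast hlamℓ)
  have hLle : (L : ℝ) ≤ lam * ℓ := by
    rw [hL]
    exact Nat.floor_le (by positivity)
  have hLge : lam * ℓ - 1 ≤ L := by
    rw [hL]
    have := Nat.lt_floor_add_one (lam * ℓ)
    linarith
  obtain ⟨R, hR⟩ : ∃ R : ℕ, R = ⌈(M : ℝ) ^ E1 / c0⌉₊ := ⟨_, rfl⟩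
  have hME : 1 ≤ (M : ℝ) ^ E1 := Real.one_le_rpow hMR1 (le_trans (by positivity) hE10)
  have hR1 : (M : ℝ) ^ E1 / c0 ≤ R := by
    rw [hR]
    exact Nat.le_ceil _
  have hME2 : 1 ≤ (M : ℝ) ^ E1 / c0 := by
    rw [le_div_iff₀ hc0']
    linarith
  have hR2 : (R : ℝ) ≤ 2 * ((M : ℝ) ^ E1 / c0) := by
    have h1 := Nat.ceil_lt_add_one (show 0 ≤ (M : ℝ) ^ E1 / c0 by positivity)
    rw [← hR] at h1
    linarith
  have hR3 : 1 ≤ R := by
    have : (1 : ℝ) ≤ R := hME2.trans hR1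
    exact_mod_cast this
  have hR4 : (M : ℝ) ^ E1 ≤ c0 * R := by
    rw [div_le_iff₀ hc0'] at hR1
    linarith
  -- the parameters
  set Ka : ℕ := ⌊(M : ℝ) ^ c⌋₊ with hKa
  set T : Finset ℕ := (Icc 1 ⌊(M : ℝ) ^ A⌋₊).filter
    (fun t => ∀ p : ℕ, p.Prime → p ∣ t → p ≤ B) with hT
  set U : ℕ := ⌈A * ℓ⌉₊ with hU
  set J : Finset (Fin n → ℕ) := Fintype.piFinset (fun _ : Fin n => range (B ^ w)) with hJ
  set PP : Finset (ι × ℕ × ℕ × ℕ × ℕ × ℕ × ℕ × (Fin n → ℕ)) :=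
    Y ×ˢ (Icc 1 Ka) ×ˢ (Icc 1 Ka) ×ˢ T ×ˢ (range U) ×ˢ (Icc 2 B) ×ˢ (Icc 1 w) ×ˢ J with hPP
  set β : ℝ := 2 * Real.exp (-(η ^ 2 / 4) * L) * (3 * R) ^ n with hβ
  have hβ0 : 0 ≤ β := by positivity
  have hAℓ : A * ℓ ≤ |A| * ℓ := mul_le_mul_of_nonneg_right (le_abs_self A) hℓ0.le
  -- one window
  have hone : ∀ π ∈ PP, ((St σ x M L η π).card : ℝ) ≤ β := by
    rintro ⟨y, a, q, t, u, b, k, j⟩ hπ
    simp only [hPP, Finset.mem_product, Finset.mem_Icc, Finset.mem_range] at hπ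
    obtain ⟨hy, ⟨ha1, ha2⟩, ⟨hq1, hq2⟩, ht, hu, ⟨hb1, hb2⟩, ⟨hk1, hk2⟩, hj⟩ := hπ
    rw [hT, Finset.mem_filter, Finset.mem_Icc] at ht
    obtain ⟨⟨ht1, ht2⟩, ht3⟩ := ht
    unfold St
    split_ifs with hjj
    swap
    · simpa using hβ0
    simp only at hjj ⊢
    have haM : (a : ℝ) ≤ (M : ℝ) ^ c := by
      have h1 : (a : ℝ) ≤ Ka := by exact_mod_cast ha2
      exact h1.trans (Nat.floor_le (by positivity))
    have hqM : (q : ℝ) ≤ (M : ℝ) ^ c := by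
      have h1 : (q : ℝ) ≤ Ka := by exact_mod_cast hq2
      exact h1.trans (Nat.floor_le (by positivity))
    have htM : (t : ℝ) ≤ (M : ℝ) ^ A := by
      have h1 : (t : ℝ) ≤ ⌊(M : ℝ) ^ A⌋₊ := by exact_mod_cast ht2
      exact h1.trans (Nat.floor_le (by positivity))
    have huA : (u : ℝ) < A * ℓ := Nat.lt_ceil.1 hu
    have hb0 : (0 : ℝ) < b := by exact_mod_cast (by omega : 0 < b)
    have hb1R : (1 : ℝ) ≤ b := by exact_mod_cast (by omega : 1 ≤ b)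
    have hlogb : Real.log b ≤ lb := by
      rw [hlb]
      apply Real.log_le_log hb0
      have : (b : ℝ) ≤ B := by exact_mod_cast hb2
      linarith
    have hlogb0 : 0 ≤ Real.log b := Real.log_nonneg hb1R
    have ht0 : (0 : ℝ) < t := by exact_mod_cast ht1
    have ha0 : (0 : ℝ) < a := by exact_mod_cast ha1
    have hq0 : (0 : ℝ) < q := by exact_mod_cast hq1
    have hbu : (b : ℝ) ^ u ≤ Real.exp (|A| * lb * ℓ) := by
      have e1 : (b : ℝ) ^ u = Real.exp (u * Real.log b) := by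
        rw [mul_comm, ← Real.rpow_def_of_pos hb0, Real.rpow_natCast]
      rw [e1]
      apply Real.exp_le_exp.2
      have h1 : (u : ℝ) ≤ |A| * ℓ := huA.le.trans hAℓ
      calc (u : ℝ) * Real.log b ≤ (|A| * ℓ) * lb :=
            mul_le_mul h1 hlogb hlogb0 (by positivity)
        _ = _ := by ring
    have hsepc : ((a : ℝ) * M) ^ (1 / (n : ℝ) + δ) * ((b : ℝ) ^ u * t) ^ δ * q ≤ c0 * R := by
      refine le_trans ?_ hR4
      have h1 : (a : ℝ) * M ≤ Real.exp ((1 + c) * ℓ) := by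
        have e1 : Real.exp ((1 + c) * ℓ) = (M : ℝ) ^ c * M := by
          have e0 : (M : ℝ) = Real.exp ℓ := by rw [hℓ, Real.exp_log hMR0]
          rw [hMpow, e0, ← Real.exp_add]
          congr 1
          ring
        rw [e1]
        exact mul_le_mul_of_nonneg_right haM hMR0.le
      have h2 : ((a : ℝ) * M) ^ (1 / (n : ℝ) + δ) ≤ Real.exp ((1 + c) * ℓ * (1 / n + δ)) := by
        rw [Real.exp_mul]
        exact Real.rpow_le_rpow (by positivity) h1 (by positivity)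
      have h3 : (b : ℝ) ^ u * t ≤ Real.exp (H * ℓ) := by
        have h4 : (t : ℝ) ≤ Real.exp (|A| * ℓ) := by
          refine htM.trans ?_
          rw [hMpow]
          exact Real.exp_le_exp.2 hAℓ
        calc (b : ℝ) ^ u * t ≤ Real.exp (|A| * lb * ℓ) * Real.exp (|A| * ℓ) :=
              mul_le_mul hbu h4 ht0.le (Real.exp_pos _).le
          _ = Real.exp (H * ℓ) := by
              rw [← Real.exp_add, hH]
              congr 1
              ring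
      have h5 : ((b : ℝ) ^ u * t) ^ δ ≤ Real.exp (H * ℓ * δ) := by
        rw [Real.exp_mul]
        exact Real.rpow_le_rpow (by positivity) h3 hδ0.le
      have h6 : (q : ℝ) ≤ Real.exp (c * ℓ) := by
        rw [← hMpow]
        exact hqM
      calc ((a : ℝ) * M) ^ (1 / (n : ℝ) + δ) * ((b : ℝ) ^ u * t) ^ δ * q
          ≤ Real.exp ((1 + c) * ℓ * (1 / n + δ)) * Real.exp (H * ℓ * δ) * Real.exp (c * ℓ) := by
            gcongr
        _ = (M : ℝ) ^ E1 := by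
            rw [hMpow, ← Real.exp_add, ← Real.exp_add, hE1]
            congr 1
            ring
    have hsep := sep_of x c0 δ hδ0 B hsim M a q t b u R ha1 hq1 ht1 hb1 hb2 ht3 hR3 hsepc (σ y a q t)
    have hBk1 : 1 ≤ b ^ k := Nat.one_le_pow _ _ (by omega)
    have hwin := window (b ^ k) L M R hBk1 hR3
      (fun m l => (b : ℝ) ^ u * (σ y a q t l + (a : ℝ) * t * m / q * x l)) hsep j hjj η hη0 hη1
    refine hwin.trans ?_
    have hBk0 : (0 : ℝ) < ((b ^ k : ℕ) : ℝ) := by exact_mod_cast hBk1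
    have hBkL : ((b ^ k : ℕ) : ℝ) ^ L ≤ R := by
      have h1 : ((b ^ k : ℕ) : ℝ) ^ L = Real.exp (k * L * Real.log b) := by
        push_cast
        rw [← pow_mul, mul_comm _ (Real.log (b : ℝ)), ← Nat.cast_mul,
          ← Real.rpow_def_of_pos hb0, Real.rpow_natCast]
      have h2 : (k : ℝ) * L * Real.log b ≤ 1 / n * ℓ := by
        have h3 : (k : ℝ) ≤ w := by exact_mod_cast hk2
        calc (k : ℝ) * L * Real.log b ≤ w * (lam * ℓ) * lb := by gcongr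
          _ = w * lam * lb * ℓ := by ring
          _ ≤ 1 / n * ℓ := mul_le_mul_of_nonneg_right hlam2 hℓ0.le
      calc ((b ^ k : ℕ) : ℝ) ^ L = Real.exp (k * L * Real.log b) := h1
        _ ≤ Real.exp (1 / n * ℓ) := Real.exp_le_exp.2 h2
        _ = (M : ℝ) ^ (1 / (n : ℝ)) := (hMpow _).symm
        _ ≤ (M : ℝ) ^ E1 := Real.rpow_le_rpow_of_exponent_le hMR1 hE10
        _ ≤ (M : ℝ) ^ E1 / c0 := by
            rw [le_div_iff₀ hc0']
            nlinarith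
        _ ≤ R := hR1
    rw [hβ, mul_assoc, mul_assoc, mul_assoc]
    apply mul_le_mul_of_nonneg_left _ (by norm_num)
    apply mul_le_mul_of_nonneg_left _ (Real.exp_pos _).le
    rw [← pow_mul, mul_comm n L, pow_mul, ← mul_pow]
    apply pow_le_pow_left₀ (by positivity)
    have h3 : ((b ^ k : ℕ) : ℝ) ^ L * ((R : ℝ) / ((b ^ k : ℕ) : ℝ) ^ L + 2) =
        R + 2 * ((b ^ k : ℕ) : ℝ) ^ L := by
      field_simp
    rw [h3]
    linarith
  -- the union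
  have hsub : (range M).filter (fun m : ℕ => ¬ ∀ y ∈ Y, ∀ a q t : ℕ, 1 ≤ a →
        (a : ℝ) ≤ (M : ℝ) ^ c → 1 ≤ q → (q : ℝ) ≤ (M : ℝ) ^ c → 1 ≤ t → (t : ℝ) ≤ (M : ℝ) ^ A →
        (∀ p : ℕ, p.Prime → p ∣ t → p ≤ B) →
        Nrm B w (A * ℓ) (ε * ℓ) (fun l => σ y a q t l + (a : ℝ) * t * m / q * x l)) ⊆
      PP.biUnion (St σ x M L η) := by
    intro m hm
    rw [Finset.mem_filter, Finset.mem_range] at hm
    obtain ⟨hmM, hm2⟩ := hm
    push Not at hm2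
    obtain ⟨y, hy, a, q, t, ha1, ha2, hq1, hq2, ht1, ht2, ht3, hbad⟩ := hm2
    by_contra hnot
    apply hbad
    apply nrm_of B w L hL1 (A * ℓ) (ε * ℓ) η hη0.le
    · have h1 : η * (A * ℓ) ≤ ε / 2 * ℓ := by
        calc η * (A * ℓ) ≤ η * (|A| * ℓ) := mul_le_mul_of_nonneg_left hAℓ hη0.le
          _ = η * |A| * ℓ := by ring
          _ ≤ _ := mul_le_mul_of_nonneg_right hη2 hℓ0.le
      have h2 : (w : ℝ) * L ≤ ε / 2 * ℓ := by
        calc (w : ℝ) * L ≤ w * (lam * ℓ) := mul_le_mul_of_nonneg_left hLle hw0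
          _ = w * lam * ℓ := by ring
          _ ≤ _ := mul_le_mul_of_nonneg_right hlam1 hℓ0.le
      linarith
    · positivity
    · intro b k u j hb1 hb2 hk1 hk2 hjj hu
      by_contra hlt
      push Not at hlt
      apply hnot
      rw [Finset.mem_biUnion]
      refine ⟨(y, a, q, t, u, b, k, j), ?_, ?_⟩
      · simp only [hPP, Finset.mem_product, Finset.mem_Icc, Finset.mem_range]
        refine ⟨hy, ⟨ha1, Nat.le_floor ha2⟩, ⟨hq1, Nat.le_floor hq2⟩, ?_, Nat.lt_ceil.2 hu,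
          ⟨hb1, hb2⟩, ⟨hk1, hk2⟩, ?_⟩
        · rw [hT, Finset.mem_filter, Finset.mem_Icc]
          exact ⟨⟨ht1, Nat.le_floor ht2⟩, ht3⟩
        · rw [hJ, Fintype.mem_piFinset]
          intro l
          rw [Finset.mem_range]
          calc j l < b ^ k := hjj l
            _ ≤ B ^ k := Nat.pow_le_pow_left hb2 _
            _ ≤ B ^ w := Nat.pow_le_pow_right (by omega) hk2
      · unfold St
        simp only
        rw [if_pos hjj, Finset.mem_filter, Finset.mem_range]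
        exact ⟨hmM, hlt⟩
  have hcard1 : (((range M).filter (fun m : ℕ => ¬ ∀ y ∈ Y, ∀ a q t : ℕ, 1 ≤ a →
        (a : ℝ) ≤ (M : ℝ) ^ c → 1 ≤ q → (q : ℝ) ≤ (M : ℝ) ^ c → 1 ≤ t → (t : ℝ) ≤ (M : ℝ) ^ A →
        (∀ p : ℕ, p.Prime → p ∣ t → p ≤ B) →
        Nrm B w (A * ℓ) (ε * ℓ) (fun l => σ y a q t l + (a : ℝ) * t * m / q * x l))).card : ℝ) ≤
      PP.card * β := by
    have h1 := (Finset.card_le_card hsub).trans Finset.card_biUnion_le
    have h2 : ((∑ π ∈ PP, (St σ x M L η π).card : ℕ) : ℝ) ≤ PP.card * β := by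
      push_cast
      calc ∑ π ∈ PP, ((St σ x M L η π).card : ℝ) ≤ ∑ _π ∈ PP, β := Finset.sum_le_sum hone
        _ = _ := by rw [Finset.sum_const, nsmul_eq_mul]
    exact le_trans (by exact_mod_cast h1) h2
  -- the number of the parameters
  have hKa1 : (Ka : ℝ) ≤ (M : ℝ) ^ c := Nat.floor_le (by positivity)
  have hU1 : (U : ℝ) ≤ A' * ℓ := by
    rcases le_or_gt (A * ℓ) 0 with h | h
    · rw [hU, Nat.ceil_eq_zero.2 h]
      simp only [Nat.cast_zero]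
      positivity
    · have h1 := Nat.ceil_lt_add_one h.le
      rw [← hU] at h1
      have h2 : A' * ℓ = |A| / Real.log 2 * ℓ + 4 * ℓ := by rw [hA']; ring
      have h3 : |A| * ℓ ≤ |A| / Real.log 2 * ℓ := mul_le_mul_of_nonneg_right hAA hℓ0.le
      linarith
  have hT1 : (T.card : ℝ) ≤ (A' * ℓ) ^ (B + 1) := by
    set J0 : ℕ := ⌈|A| * ℓ / Real.log 2⌉₊ + 1 with hJ0
    have h1 := card_smooth B J0 T (by
      intro t ht
      rw [hT, Finset.mem_filter, Finset.mem_Icc] at ht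
      refine ⟨ht.1.1, ?_⟩
      have h2 : (t : ℝ) ≤ (M : ℝ) ^ A := by
        have h3 : (t : ℝ) ≤ ⌊(M : ℝ) ^ A⌋₊ := by exact_mod_cast ht.1.2
        exact h3.trans (Nat.floor_le (by positivity))
      have h3 : (M : ℝ) ^ A < (2 : ℝ) ^ J0 := by
        have e1 : (2 : ℝ) ^ J0 = Real.exp (J0 * Real.log 2) := by
          rw [mul_comm, ← Real.rpow_def_of_pos (by norm_num : (0 : ℝ) < 2), Real.rpow_natCast]
        rw [e1, hMpow]
        apply Real.exp_lt_exp.2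
        have h4 := Nat.le_ceil (|A| * ℓ / Real.log 2)
        rw [div_le_iff₀ hl2] at h4
        have h5 : (J0 : ℝ) = (⌈|A| * ℓ / Real.log 2⌉₊ : ℝ) + 1 := by
          rw [hJ0]; push_cast; rfl
        rw [h5, add_mul, one_mul]
        linarith
      have h4 : (t : ℝ) < (2 : ℝ) ^ J0 := lt_of_le_of_lt h2 h3
      exact_mod_cast h4) (by
      intro t ht
      rw [hT, Finset.mem_filter] at ht
      exact ht.2)
    have h2 : ((J0 : ℝ) + 1) ≤ A' * ℓ := by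
      have h4 := Nat.ceil_lt_add_one (show 0 ≤ |A| * ℓ / Real.log 2 by positivity)
      have h5 : (J0 : ℝ) = (⌈|A| * ℓ / Real.log 2⌉₊ : ℝ) + 1 := by
        rw [hJ0]; push_cast; rfl
      have h6 : A' * ℓ = |A| * ℓ / Real.log 2 + 4 * ℓ := by rw [hA']; ring
      linarith
    calc (T.card : ℝ) ≤ (((J0 + 1) ^ (B + 1) : ℕ) : ℝ) := by exact_mod_cast h1
      _ = ((J0 : ℝ) + 1) ^ (B + 1) := by push_cast; rfl
      _ ≤ _ := pow_le_pow_left₀ (by positivity) h2 _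
  have hPPc : (PP.card : ℝ) ≤ Real.exp (3 * c * ℓ) * ((A' * ℓ) ^ (B + 2) * B * w *
      ((B : ℝ) ^ w) ^ n) := by
    rw [hPP]
    simp only [Finset.card_product, Nat.card_Icc, Finset.card_range, hJ,
      Fintype.card_piFinset_const, Nat.add_sub_cancel]
    push_cast
    have h1 : ((B + 1 - 2 : ℕ) : ℝ) ≤ B := by
      have : B + 1 - 2 ≤ B := by omega
      exact_mod_cast this
    have e1 : Real.exp (3 * c * ℓ) = (M : ℝ) ^ c * ((M : ℝ) ^ c * (M : ℝ) ^ c) := by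
      rw [hMpow, ← Real.exp_add, ← Real.exp_add]
      congr 1
      ring
    rw [e1]
    calc (Y.card : ℝ) * (Ka * (Ka * (T.card * (U * (((B + 1 - 2 : ℕ) : ℝ) *
          (w * ((B : ℝ) ^ w) ^ n))))))
        ≤ (M : ℝ) ^ c * ((M : ℝ) ^ c * ((M : ℝ) ^ c * ((A' * ℓ) ^ (B + 1) * ((A' * ℓ) *
          (B * (w * ((B : ℝ) ^ w) ^ n)))))) := by gcongr
      _ = _ := by ring
  have hβ1 : β ≤ 2 * Real.exp 1 * (6 / c0) ^ n * Real.exp ((n * E1 - ζ) * ℓ) := by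
    have h1 : Real.exp (-(η ^ 2 / 4) * L) ≤ Real.exp 1 * Real.exp (-ζ * ℓ) := by
      rw [← Real.exp_add]
      apply Real.exp_le_exp.2
      have h2 : η ^ 2 / 4 * (lam * ℓ - 1) ≤ η ^ 2 / 4 * L :=
        mul_le_mul_of_nonneg_left hLge (by positivity)
      have h3 : η ^ 2 / 4 * (lam * ℓ) = ζ * ℓ := by rw [hζ]; ring
      have h4 : η ^ 2 / 4 ≤ 1 := by nlinarith
      linarith
    have h2 : (3 * (R : ℝ)) ^ n ≤ (6 / c0) ^ n * Real.exp (n * E1 * ℓ) := by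
      have e1 : Real.exp (n * E1 * ℓ) = ((M : ℝ) ^ E1) ^ n := by
        rw [hMpow, ← Real.exp_nat_mul]
        congr 1
        ring
      rw [e1, ← mul_pow]
      apply pow_le_pow_left₀ (by positivity)
      have e2 : 6 / c0 * (M : ℝ) ^ E1 = 3 * (2 * ((M : ℝ) ^ E1 / c0)) := by ring
      rw [e2]
      linarith
    calc β ≤ 2 * (Real.exp 1 * Real.exp (-ζ * ℓ)) * ((6 / c0) ^ n * Real.exp (n * E1 * ℓ)) := by
          rw [hβ]
          gcongr
      _ = 2 * Real.exp 1 * (6 / c0) ^ n * (Real.exp (-ζ * ℓ) * Real.exp (n * E1 * ℓ)) := by ring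
      _ = _ := by
          rw [← Real.exp_add]
          congr 2
          ring
  refine hcard1.trans ?_
  calc (PP.card : ℝ) * β ≤ (Real.exp (3 * c * ℓ) * ((A' * ℓ) ^ (B + 2) * B * w *
        ((B : ℝ) ^ w) ^ n)) * (2 * Real.exp 1 * (6 / c0) ^ n * Real.exp ((n * E1 - ζ) * ℓ)) :=
        mul_le_mul hPPc hβ1 hβ0 (by positivity)
    _ = (C5 * ℓ ^ (B + 2)) * (Real.exp (3 * c * ℓ) * Real.exp ((n * E1 - ζ) * ℓ)) := by
        rw [hC5, mul_pow]
        ring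
    _ ≤ Real.exp (c * ℓ) * (Real.exp (3 * c * ℓ) * Real.exp ((n * E1 - ζ) * ℓ)) := by
        apply mul_le_mul_of_nonneg_right _ (by positivity)
        rw [← hMpow]
        exact hMa
    _ = Real.exp ((4 * c + n * E1 - ζ) * ℓ) := by
        rw [← Real.exp_add, ← Real.exp_add]
        congr 1
        ring
    _ ≤ (M : ℝ) ^ (1 - c) := by
        rw [hMpow]
        apply Real.exp_le_exp.2
        apply mul_le_mul_of_nonneg_right _ hℓ0.le
        linarith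

end Pool.Agent.Q263.JM
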